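import Mathlib
import Pool.Agent.V11179.SymDefs
import Pool.Agent.V11179.SymTop

/-!
# Three symplectic additive subgroups acting infinitely transitively

Affirmative answer to the question of MP_e86abc_ag: for every field `K` of characteristic zero
and every `n ≥ 2` there are three additive one-parameter groups of polynomial symplectomorphisms
of affine `2n`-space which together generate a group acting infinitely transitively.
-/

namespace Pool.Agent.Results.MP_e86abc_ag.ThreeSubgroups

open Pool.Agent.V11179.Sym MvPolynomial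

variable {K : Type*} [Field K] {n : ℕ}

theorem pderiv_comm' {σ : Type*} (i k : σ) (g : MvPolynomial σ K) :
    pderiv k (pderiv i g) = pderiv i (pderiv k g) := by
  classical
  induction g using MvPolynomial.induction_on with
  | C a => simp
  | add p q hp hq => simp only [map_add, hp, hq]
  | mul_X p j hp =>
    simp only [pderiv_mul, map_add, hp, pderiv_X, Pi.single_apply]
    split_ifs <;> simp <;> ring

/-- coordinates as pairs -/
def e (K : Type*) (n : ℕ) : (Fin n → K) × (Fin n → K) ≃ Aff K n :=
  (Equiv.sumArrowEquivProdArrow (Fin n) (Fin n) K).symm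

theorem e_symm_fst (p : Aff K n) (i : Fin n) : ((e K n).symm p).1 i = p (Sum.inl i) := rfl
theorem e_symm_snd (p : Aff K n) (i : Fin n) : ((e K n).symm p).2 i = p (Sum.inr i) := rfl
theorem e_inl (p : (Fin n → K) × (Fin n → K)) (i : Fin n) : e K n p (Sum.inl i) = p.1 i := rfl
theorem e_inr (p : (Fin n → K) × (Fin n → K)) (i : Fin n) : e K n p (Sum.inr i) = p.2 i := rfl

noncomputable def homX (g : MvPolynomial (Fin n) K) :
    Multiplicative K →* Equiv.Perm ((Fin n → K) × (Fin n → K)) where
  toFun t := expX (t.toAdd • g)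
  map_one' := by rw [toAdd_one, zero_smul, expX_zero]
  map_mul' s t := by rw [toAdd_mul, add_smul, expX_add]

noncomputable def homY (g : MvPolynomial (Fin n) K) :
    Multiplicative K →* Equiv.Perm ((Fin n → K) × (Fin n → K)) where
  toFun t := expY (t.toAdd • g)
  map_one' := by
    rw [toAdd_one, zero_smul, expY, expX_zero, mul_one, mul_inv_cancel]
  map_mul' s t := by
    rw [toAdd_mul, add_smul, expY, expY, expY, expX_add]
    group

noncomputable def M (K : Type*) (n : ℕ) :
    Equiv.Perm ((Fin n → K) × (Fin n → K)) ≃* Equiv.Perm (Aff K n) :=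
  (e K n).permCongrHom

theorem M_apply (σ : Equiv.Perm ((Fin n → K) × (Fin n → K))) (p : Aff K n) :
    M K n σ p = e K n (σ ((e K n).symm p)) := rfl

theorem gaX (g : MvPolynomial (Fin n) K) (hne : ∃ x i, eval x (pderiv i g) ≠ 0) :
    IsGaAction ((M K n).toMonoidHom.comp (homX g)) := by
  constructor
  · intro h
    obtain ⟨x, i, hx⟩ := hne
    have h1 := congrArg (fun φ : Multiplicative K →* Equiv.Perm (Aff K n) =>
      φ (Multiplicative.ofAdd 1) (e K n (x, 0)) (Sum.inr i)) h
    simp only [MonoidHom.comp_apply, MulEquiv.coe_toMonoidHom, M_apply, MonoidHom.one_apply,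
      Equiv.Perm.one_apply, Equiv.symm_apply_apply, homX, MonoidHom.coe_mk, OneHom.coe_mk,
      toAdd_ofAdd, one_smul, expX_apply, e_inr] at h1
    apply hx
    simpa using h1
  · refine ⟨fun a => match a with
      | Sum.inl i => X (some (Sum.inl i))
      | Sum.inr i => X (some (Sum.inr i)) +
          X none * rename (fun k => some (Sum.inl k)) (pderiv i g), ?_⟩
    intro t p a
    rcases a with i | i
    · simp only [MonoidHom.comp_apply, MulEquiv.coe_toMonoidHom, M_apply, homX,
        MonoidHom.coe_mk, OneHom.coe_mk, expX_apply, e_inl, e_symm_fst, eval_X, Option.elim]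
    · simp only [MonoidHom.comp_apply, MulEquiv.coe_toMonoidHom, M_apply, homX,
        MonoidHom.coe_mk, OneHom.coe_mk, expX_apply, e_inr, e_symm_snd, eval_X, Option.elim,
        map_add, map_mul, toAdd_ofAdd, Derivation.map_smul, smul_eval, eval_rename]
      rfl

theorem sum_inl_inr (f : Fin n ⊕ Fin n → K) :
    ∑ b, f b = ∑ i, f (Sum.inl i) + ∑ i, f (Sum.inr i) := Fintype.sum_sum_type _

theorem pderiv_inr_rename (g : MvPolynomial (Fin n) K) (k : Fin n) :
    pderiv (Sum.inr k) (rename (Sum.inl : Fin n → Fin n ⊕ Fin n) g) = 0 := by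
  induction g using MvPolynomial.induction_on with
  | C a => simp
  | add p q hp hq => simp only [map_add, hp, hq, add_zero]
  | mul_X p j hp =>
    rw [map_mul, pderiv_mul, hp, rename_X, pderiv_X_of_ne (by simp)]
    simp

theorem sympX (g : MvPolynomial (Fin n) K) (t : K) :
    IsSymplecto (M K n (expX (t • g))) := by
  classical
  let P : Fin n ⊕ Fin n → MvPolynomial (Fin n ⊕ Fin n) K := fun a => match a with
      | Sum.inl i => X (Sum.inl i)
      | Sum.inr i => X (Sum.inr i) + C t * rename Sum.inl (pderiv i g)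
  refine ⟨P, ?_, ?_⟩
  · intro p a
    rcases a with i | i
    · simp only [M_apply, expX_apply, e_inl, e_symm_fst, P, eval_X]
    · simp only [M_apply, expX_apply, e_inr, e_symm_snd, P, eval_X, map_add, map_mul, eval_C,
        Derivation.map_smul, smul_eval, eval_rename]
      rfl
  · intro p u v
    have h1 : ∀ (w : Aff K n) i, polyDiff P p w (Sum.inl i) = w (Sum.inl i) := by
      intro w i
      simp only [polyDiff, P]
      rw [Finset.sum_eq_single (Sum.inl i)]
      · simp
      · intro b _ hb
        rw [pderiv_X_of_ne (Ne.symm hb)]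
        simp
      · simp
    have h2 : ∀ (w : Aff K n) i, polyDiff P p w (Sum.inr i) = w (Sum.inr i) +
        t * ∑ k, eval (fun j => p (Sum.inl j)) (pderiv k (pderiv i g)) * w (Sum.inl k) := by
      intro w i
      simp only [polyDiff, P, map_add, add_mul, Finset.sum_add_distrib]
      congr 1
      · rw [Finset.sum_eq_single (Sum.inr i)]
        · simp
        · intro b _ hb
          rw [pderiv_X_of_ne (Ne.symm hb)]
          simp
        · simp
      · rw [sum_inl_inr, Finset.mul_sum]
        simp only [pderiv_C_mul, pderiv_inr_rename, mul_zero, map_zero, zero_mul,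
          Finset.sum_const_zero, add_zero]
        apply Finset.sum_congr rfl
        intro k _
        rw [pderiv_rename Sum.inl_injective, map_mul, eval_C, eval_rename]
        rw [mul_assoc]
        rfl
    simp only [omega, h1, h2]
    set Hs : Fin n → Fin n → K :=
      fun i k => eval (fun j => p (Sum.inl j)) (pderiv k (pderiv i g)) with hHs
    have hsym : ∀ i k, Hs i k = Hs k i := by
      intro i k
      simp only [hHs]
      rw [pderiv_comm']
    have h3 : ∑ i, u (Sum.inl i) * ∑ k, Hs i k * v (Sum.inl k) =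
        ∑ i, (∑ k, Hs i k * u (Sum.inl k)) * v (Sum.inl i) := by
      simp only [Finset.mul_sum, Finset.sum_mul]
      rw [Finset.sum_comm]
      apply Finset.sum_congr rfl
      intro i _
      apply Finset.sum_congr rfl
      intro k _
      rw [hsym k i]
      ring
    calc ∑ i, (u (Sum.inl i) * (v (Sum.inr i) + t * ∑ k, Hs i k * v (Sum.inl k)) -
          (u (Sum.inr i) + t * ∑ k, Hs i k * u (Sum.inl k)) * v (Sum.inl i))
        = ∑ i, (u (Sum.inl i) * v (Sum.inr i) - u (Sum.inr i) * v (Sum.inl i)) +
          t * (∑ i, u (Sum.inl i) * ∑ k, Hs i k * v (Sum.inl k) -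
            ∑ i, (∑ k, Hs i k * u (Sum.inl k)) * v (Sum.inl i)) := by
          rw [← Finset.sum_sub_distrib, Finset.mul_sum, ← Finset.sum_add_distrib]
          apply Finset.sum_congr rfl
          intro i _
          ring
      _ = ∑ i, (u (Sum.inl i) * v (Sum.inr i) - u (Sum.inr i) * v (Sum.inl i)) := by
          rw [h3, sub_self, mul_zero, add_zero]

theorem gaY [CharZero K] (z : Fin n) :
    IsGaAction ((M K n).toMonoidHom.comp (homY (polyQ K n))) := by
  constructor
  · intro h
    have h1 := congrArg (fun φ : Multiplicative K →* Equiv.Perm (Aff K n) =>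
      φ (Multiplicative.ofAdd 1) (e K n (0, fun _ => 1)) (Sum.inl z)) h
    simp only [MonoidHom.comp_apply, MulEquiv.coe_toMonoidHom, M_apply, MonoidHom.one_apply,
      Equiv.Perm.one_apply, Equiv.symm_apply_apply, homY, MonoidHom.coe_mk, OneHom.coe_mk,
      toAdd_ofAdd, expY_polyQ, e_inl] at h1
    simp at h1
  · refine ⟨fun a => match a with
      | Sum.inl i => X (some (Sum.inl i)) - X none * X (some (Sum.inr i))
      | Sum.inr i => X (some (Sum.inr i)), ?_⟩
    intro t p a
    rcases a with i | i
    · simp only [MonoidHom.comp_apply, MulEquiv.coe_toMonoidHom, M_apply, homY,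
        MonoidHom.coe_mk, OneHom.coe_mk, expY_polyQ, e_inl, e_symm_fst, e_symm_snd, eval_X,
        Option.elim, map_sub, map_mul, toAdd_ofAdd]
    · simp only [MonoidHom.comp_apply, MulEquiv.coe_toMonoidHom, M_apply, homY,
        MonoidHom.coe_mk, OneHom.coe_mk, expY_polyQ, e_inr, e_symm_snd, eval_X, Option.elim]

theorem sympY [CharZero K] (t : K) : IsSymplecto (M K n (expY (t • polyQ K n))) := by
  classical
  let P : Fin n ⊕ Fin n → MvPolynomial (Fin n ⊕ Fin n) K := fun a => match a with
      | Sum.inl i => X (Sum.inl i) - C t * X (Sum.inr i)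
      | Sum.inr i => X (Sum.inr i)
  refine ⟨P, ?_, ?_⟩
  · intro p a
    rcases a with i | i
    · simp only [M_apply, expY_polyQ, e_inl, e_symm_fst, e_symm_snd, P, eval_X, map_sub, map_mul,
        eval_C]
    · simp only [M_apply, expY_polyQ, e_inr, e_symm_snd, P, eval_X]
  · intro p u v
    have h2 : ∀ (w : Aff K n) i, polyDiff P p w (Sum.inr i) = w (Sum.inr i) := by
      intro w i
      simp only [polyDiff, P]
      rw [Finset.sum_eq_single (Sum.inr i)]
      · simp
      · intro b _ hb
        rw [pderiv_X_of_ne (Ne.symm hb)]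
        simp
      · simp
    have h1 : ∀ (w : Aff K n) i, polyDiff P p w (Sum.inl i) = w (Sum.inl i) -
        t * w (Sum.inr i) := by
      intro w i
      simp only [polyDiff, P, map_sub, sub_mul, Finset.sum_sub_distrib]
      congr 1
      · rw [Finset.sum_eq_single (Sum.inl i)]
        · simp
        · intro b _ hb
          rw [pderiv_X_of_ne (Ne.symm hb)]
          simp
        · simp
      · rw [Finset.sum_eq_single (Sum.inr i)]
        · simp
        · intro b _ hb
          rw [pderiv_C_mul, pderiv_X_of_ne (Ne.symm hb)]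
          simp
        · simp
    simp only [omega, h1, h2]
    apply Finset.sum_congr rfl
    intro i _
    ring

theorem F_nontriv [CharZero K] (z : Fin n) (hz : (z : ℕ) = 0) :
    eval (0 : Fin n → K) (pderiv z (polyF K n z)) = 1 := by
  rw [polyF, map_add, map_add, map_sum, map_sum, Finset.sum_eq_single z,
    ← Finset.mul_prod_erase _ _ (Finset.mem_univ z)]
  · rw [hz, pow_zero, one_mul, pderiv_X_self, pderiv_mul, pderiv_pow]
    simp
  · intro i _ hi
    rw [pderiv_mul, pderiv_X_of_ne hi]
    simp
  · simp

theorem result.{u} :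
    ∀ (K : Type u) [Field K] [CharZero K] (n : ℕ), 2 ≤ n →
      ∃ φ : Fin 3 → (Multiplicative K →* Equiv.Perm (Aff K n)),
        (∀ j, IsGaAction (φ j) ∧ ∀ t, IsSymplecto (φ j t)) ∧
          InfTransitive (⨆ j, (φ j).range) := by
  intro K _ _ n hn
  let z : Fin n := ⟨0, by omega⟩
  have hz : (z : ℕ) = 0 := rfl
  let φ : Fin 3 → (Multiplicative K →* Equiv.Perm (Aff K n)) :=
    ![(M K n).toMonoidHom.comp (homX (polyQ K n)), (M K n).toMonoidHom.comp (homY (polyQ K n)),
      (M K n).toMonoidHom.comp (homX (polyF K n z))]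
  refine ⟨φ, ?_, ?_⟩
  · intro j
    fin_cases j
    · refine ⟨gaX _ ⟨fun _ => 1, z, ?_⟩, fun t => sympX _ _⟩
      rw [pderiv_polyQ, eval_X]
      exact one_ne_zero
    · exact ⟨gaY z, fun t => sympY _⟩
    · refine ⟨gaX _ ⟨0, z, ?_⟩, fun t => sympX _ _⟩
      rw [F_nontriv z hz]
      exact one_ne_zero
  · have h0 : ∀ t, φ 0 t ∈ ⨆ j, (φ j).range := fun t =>
      Subgroup.mem_iSup_of_mem 0 ⟨t, rfl⟩
    have h1 : ∀ t, φ 1 t ∈ ⨆ j, (φ j).range := fun t =>
      Subgroup.mem_iSup_of_mem 1 ⟨t, rfl⟩
    have h2 : ∀ t, φ 2 t ∈ ⨆ j, (φ j).range := fun t =>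
      Subgroup.mem_iSup_of_mem 2 ⟨t, rfl⟩
    have key := infTrans ((⨆ j, (φ j).range).comap (M K n).toMonoidHom) hn z hz
      (fun t => h0 (Multiplicative.ofAdd t)) (fun t => h1 (Multiplicative.ofAdd t))
      (fun t => h2 (Multiplicative.ofAdd t))
    intro m p q hp hq
    obtain ⟨h, hh, hk⟩ := key m (fun k => (e K n).symm (p k)) (fun k => (e K n).symm (q k))
      (fun k l h => hp ((e K n).symm.injective h)) (fun k l h => hq ((e K n).symm.injective h))
    refine ⟨M K n h, hh, ?_⟩
    intro k
    rw [M_apply, hk k, Equiv.apply_symm_apply]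

end Pool.Agent.Results.MP_e86abc_ag.ThreeSubgroups
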